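import Pool.Agent.Helper64.PC.Frc

/-!
# Module DELTA: a pattern which is not the sum of two patterns of a small set
-/

namespace Pool.Agent.Helper52.PC

open Pool.Agent.Helper64.PC

theorem st_delta : ST_delta := by
  intro i S hS
  classical
  let f : (ℕ → Bool) × (ℕ → Bool) → (Fin (2 * i + 1) → Bool) :=
    fun ab j => xor (ab.1 (i ^ 2 + j)) (ab.2 (i ^ 2 + j))
  have hcard : ((S ×ˢ S).image f).card < (Finset.univ : Finset (Fin (2 * i + 1) → Bool)).card := by
    calc ((S ×ˢ S).image f).card ≤ (S ×ˢ S).card := Finset.card_image_le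
      _ = S.card * S.card := Finset.card_product _ _
      _ ≤ 2 ^ i * 2 ^ i := Nat.mul_le_mul hS hS
      _ = 2 ^ (2 * i) := by rw [← pow_add]; congr 1; omega
      _ < 2 ^ (2 * i + 1) := Nat.pow_lt_pow_right (by norm_num) (Nat.lt_succ_self _)
      _ = _ := by simp
  obtain ⟨δ', _, hδ'⟩ := Finset.exists_mem_notMem_of_card_lt_card hcard
  refine ⟨fun k => if h : k - i ^ 2 < 2 * i + 1 then δ' ⟨k - i ^ 2, h⟩ else false, ?_⟩
  intro a ha b hb
  by_contra hcon
  push Not at hcon
  apply hδ'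
  refine Finset.mem_image.2 ⟨(a, b), Finset.mem_product.2 ⟨ha, hb⟩, ?_⟩
  funext j
  have hj := j.2
  have hsq : (i + 1) ^ 2 = i ^ 2 + (2 * i + 1) := by ring
  have h1 := hcon (i ^ 2 + j) (Nat.le_add_right _ _) (by rw [hsq]; omega)
  have h2 : i ^ 2 + (j : ℕ) - i ^ 2 = j := by omega
  simp only [h2, dif_pos hj] at h1
  exact h1

end Pool.Agent.Helper52.PC
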