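import Pool.Agent.Helper97.PC.Defs

/-!
# Row FOC: the first order condition
-/

open MeasureTheory Filter Topology

namespace Helper97.PC

noncomputable section

/-- Pure real analysis: from a family of inequalities to the derivative. -/
lemma foc_lim (g C : ℝ) (r n q : ℝ → ℝ) (hr : Continuous r) (hn : Continuous n)
    (hq : Continuous q)
    (h : ∀ t : ℝ, t * g + t ^ 2 * r t ≤ C * Real.sqrt (n t) * (|t| * Real.sqrt (q t))) :
    |g| ≤ C * Real.sqrt (n 0) * Real.sqrt (q 0) := by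
  have key : ∀ (g : ℝ) (r n q : ℝ → ℝ), Continuous r → Continuous n → Continuous q →
      (∀ t : ℝ, 0 < t → t * g + t ^ 2 * r t ≤ C * Real.sqrt (n t) * (t * Real.sqrt (q t))) →
      g ≤ C * Real.sqrt (n 0) * Real.sqrt (q 0) := by
    intro g r n q hr hn hq h
    have h1 : Tendsto (fun t : ℝ => g + t * r t) (𝓝[>] 0) (𝓝 (g + 0 * r 0)) :=
      ((continuous_const.add (continuous_id.mul hr)).tendsto 0).mono_left nhdsWithin_le_nhds
    have h2 : Tendsto (fun t : ℝ => C * Real.sqrt (n t) * Real.sqrt (q t)) (𝓝[>] 0)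
        (𝓝 (C * Real.sqrt (n 0) * Real.sqrt (q 0))) :=
      (((continuous_const.mul hn.sqrt).mul hq.sqrt).tendsto 0).mono_left nhdsWithin_le_nhds
    have h3 : g + 0 * r 0 ≤ C * Real.sqrt (n 0) * Real.sqrt (q 0) := by
      refine le_of_tendsto_of_tendsto h1 h2 ?_
      filter_upwards [self_mem_nhdsWithin] with t ht
      have ht' : (0 : ℝ) < t := ht
      have h4 := h t ht'
      have h5 : t * (g + t * r t) ≤ t * (C * Real.sqrt (n t) * Real.sqrt (q t)) := by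
        have e1 : t * (g + t * r t) = t * g + t ^ 2 * r t := by ring
        have e2 : t * (C * Real.sqrt (n t) * Real.sqrt (q t)) =
          C * Real.sqrt (n t) * (t * Real.sqrt (q t)) := by ring
        rw [e1, e2]; exact h4
      exact le_of_mul_le_mul_left h5 ht'
    simpa using h3
  rw [abs_le]
  constructor
  · have h6 := key (-g) (fun t => r (-t)) (fun t => n (-t)) (fun t => q (-t))
      (hr.comp continuous_neg) (hn.comp continuous_neg) (hq.comp continuous_neg) (by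
        intro t ht
        have h7 := h (-t)
        rw [abs_neg, abs_of_pos ht] at h7
        have e : t * (-g) + t ^ 2 * r (-t) = -t * g + (-t) ^ 2 * r (-t) := by ring
        rw [e]; exact h7)
    simp only [neg_zero] at h6
    linarith
  · exact key g r n q hr hn hq (by
      intro t ht
      have h7 := h t
      rw [abs_of_pos ht] at h7
      exact h7)

/-- Pointwise expansion of the square of the norm. -/
lemma foc_pt (u v : Sp) (t : ℝ) :
    ‖u + t • v‖ ^ 2 = ‖u‖ ^ 2 + 2 * t * (inner ℂ u v).re + t ^ 2 * ‖v‖ ^ 2 := by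
  have h := norm_add_sq (𝕜 := ℂ) u (t • v)
  rw [h]
  have e1 : (inner ℂ u (t • v) : ℂ) = (t : ℂ) * inner ℂ u v := by
    rw [← Complex.coe_smul t v, inner_smul_right]
  have e2 : RCLike.re (inner ℂ u (t • v) : ℂ) = t * (inner ℂ u v).re := by
    rw [e1]; simp
  rw [e2, norm_smul, mul_pow, Real.norm_eq_abs, sq_abs]
  ring

/-- Expansion of a weighted integral. -/
lemma foc_quad (w : R3 → ℝ) (f g : R3 → Sp)
    (h1 : Integrable (fun x => ‖f x‖ ^ 2 * w x))
    (h2 : Integrable (fun x => ‖f x + (1 : ℝ) • g x‖ ^ 2 * w x))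
    (h3 : Integrable (fun x => ‖g x‖ ^ 2 * w x)) :
    Integrable (fun x => (inner ℂ (f x) (g x)).re * w x) ∧
    ∀ t : ℝ, ∫ x, ‖f x + t • g x‖ ^ 2 * w x = (∫ x, ‖f x‖ ^ 2 * w x) +
      2 * t * (∫ x, (inner ℂ (f x) (g x)).re * w x) + t ^ 2 * ∫ x, ‖g x‖ ^ 2 * w x := by
  have hi : Integrable (fun x => (inner ℂ (f x) (g x)).re * w x) := by
    have h4 : Integrable (fun x => (1 / 2 : ℝ) * (‖f x + (1 : ℝ) • g x‖ ^ 2 * w x -
        ‖f x‖ ^ 2 * w x - ‖g x‖ ^ 2 * w x)) := ((h2.sub h1).sub h3).const_mul _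
    refine h4.congr (Eventually.of_forall fun x => ?_)
    simp only
    rw [foc_pt (f x) (g x) 1]
    ring
  refine ⟨hi, fun t => ?_⟩
  have e : (fun x => ‖f x + t • g x‖ ^ 2 * w x) = fun x => (‖f x‖ ^ 2 * w x +
      2 * t * ((inner ℂ (f x) (g x)).re * w x)) + t ^ 2 * (‖g x‖ ^ 2 * w x) := by
    funext x
    rw [foc_pt]; ring
  have i2 : Integrable (fun x => 2 * t * ((inner ℂ (f x) (g x)).re * w x)) := hi.const_mul _
  have i3 : Integrable (fun x => t ^ 2 * (‖g x‖ ^ 2 * w x)) := h3.const_mul _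
  have i12 : Integrable (fun x => ‖f x‖ ^ 2 * w x +
      2 * t * ((inner ℂ (f x) (g x)).re * w x)) := h1.add i2
  rw [e, integral_add i12 i3, integral_add h1 i2, integral_const_mul, integral_const_mul]

lemma foc_l2 {f : R3 → Sp} (hf : MemLp f 2 volume) : Integrable (fun x => ‖f x‖ ^ 2) :=
  hf.integrable_norm_pow (by norm_num)

/-- The expansion for `w = 1`. -/
lemma foc_quad1 (f g : R3 → Sp) (hf : MemLp f 2 volume) (hg : MemLp g 2 volume) :
    Integrable (fun x => (inner ℂ (f x) (g x)).re) ∧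
    ∀ t : ℝ, ∫ x, ‖f x + t • g x‖ ^ 2 = (∫ x, ‖f x‖ ^ 2) +
      2 * t * (∫ x, (inner ℂ (f x) (g x)).re) + t ^ 2 * ∫ x, ‖g x‖ ^ 2 := by
  have h := foc_quad (fun _ => 1) f g (by simpa using foc_l2 hf)
    (by simpa using foc_l2 (hf.add hg)) (by simpa using foc_l2 hg)
  simpa using h

/-- Expansion of the kinetic spinor. -/
lemma foc_pi (ψ θ : R3 → Sp) (D : Fin 3 → R3 → Sp) (A a : Fin 3 → R3 → ℝ) (t : ℝ) (x : R3) :
    Pi (fun x => ψ x + t • θ x) (fun j x => D j x + t • pd j θ x)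
      (fun j x => A j x + t * a j x) x =
    Pi ψ D A x + t • Lin ψ A θ a x - t ^ 2 • ∑ j, (a j x : ℂ) • sig j (θ x) := by
  unfold Lin Pi
  simp only [map_sub, map_smul, map_add, smul_add, smul_sub, Finset.sum_sub_distrib,
    Finset.sum_add_distrib, Finset.smul_sum]
  have hc : ∀ (r : ℝ) (v : Sp), r • v = (r : ℂ) • v := fun r v => (Complex.coe_smul r v).symm
  simp only [hc, map_smul, smul_smul, Complex.ofReal_add, Complex.ofReal_mul, add_smul,
    Finset.sum_add_distrib, Complex.ofReal_pow]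
  have e1 : ∀ j : Fin 3, (-Complex.I * (t : ℂ)) • sig j (pd j θ x) =
      ((t : ℂ) * -Complex.I) • sig j (pd j θ x) := fun j => by rw [mul_comm]
  have e2 : ∀ j : Fin 3, (((A j x : ℂ) + (t : ℂ) * (a j x : ℂ)) * (t : ℂ)) • sig j (θ x) =
      ((t : ℂ) * (A j x : ℂ)) • sig j (θ x) + ((t : ℂ) ^ 2 * (a j x : ℂ)) • sig j (θ x) :=
    fun j => by rw [← add_smul]; ring_nf
  simp only [e1, e2, Finset.sum_add_distrib]
  abel

/-- The real quadratic expansion for the magnetic term. -/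
lemma foc_mag (B c : Fin 3 → R3 → ℝ) (hB : ∀ j, MemLp (B j) 2 volume)
    (hc : ∀ j, MemLp (c j) 2 volume) (t : ℝ) :
    ∫ x, ∑ j, (B j x + t * c j x) ^ 2 = (∫ x, ∑ j, (B j x) ^ 2) +
      2 * t * (∫ x, ∑ j, B j x * c j x) + t ^ 2 * ∫ x, ∑ j, (c j x) ^ 2 := by
  have h1 : Integrable (fun x => ∑ j, (B j x) ^ 2) :=
    integrable_finsetSum _ fun j _ => (hB j).integrable_sq
  have h2 : Integrable (fun x => ∑ j, (c j x) ^ 2) :=
    integrable_finsetSum _ fun j _ => (hc j).integrable_sq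
  have h3 : Integrable (fun x => ∑ j, B j x * c j x) :=
    integrable_finsetSum _ fun j _ => (hB j).integrable_mul (hc j)
  have i2 : Integrable (fun x => 2 * t * ∑ j, B j x * c j x) := h3.const_mul _
  have i3 : Integrable (fun x => t ^ 2 * ∑ j, (c j x) ^ 2) := h2.const_mul _
  have i12 : Integrable (fun x => ∑ j, (B j x) ^ 2 + 2 * t * ∑ j, B j x * c j x) := h1.add i2
  have e : (fun x => ∑ j, (B j x + t * c j x) ^ 2) = fun x => (∑ j, (B j x) ^ 2 +
      2 * t * ∑ j, B j x * c j x) + t ^ 2 * ∑ j, (c j x) ^ 2 := by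
    funext x
    simp only [Fin.sum_univ_three]
    ring
  rw [e, integral_add i12 i3, integral_add h1 i2, integral_const_mul, integral_const_mul]

/-- Row FOC. -/
theorem FOC (hQH : ST_QH) (hPERT : ST_PERT) : ST_FOC := by
  intro ε z hε hz hfin ψ D A B hF hmag
  obtain ⟨⟨hadm, hnrm⟩, hzero⟩ := hF
  obtain ⟨C, hC0, hC⟩ := hQH ε z hε hz hfin
  refine ⟨C, fun θ a hθ ha => ?_⟩
  set M : R3 → Sp := fun x => ∑ j, (a j x : ℂ) • sig j (θ x) with hMdef
  have hP := hPERT ψ D A B hadm θ a hθ ha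
  -- the kinetic spinor
  have hpi : ∀ t : ℝ, (Pi (fun x => ψ x + t • θ x) (fun j x => D j x + t • pd j θ x)
      (fun j x => A j x + t * a j x)) =ᵐ[volume]
      fun x => t • (Lin ψ A θ a x + t • (-M x)) := by
    intro t
    filter_upwards [hzero] with x hx
    rw [foc_pi, hx, hMdef]
    simp only [zero_add, smul_add, smul_neg, smul_smul, pow_two, sub_eq_add_neg]
  -- membership
  have hLM1 : MemLp (fun x => (1 : ℝ) • (Lin ψ A θ a x + (1 : ℝ) • (-M x))) 2 volume :=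
    (memLp_congr_ae (hpi 1)).1 (hP 1).kinL2
  have hLM2 : MemLp (fun x => (-1 : ℝ) • (Lin ψ A θ a x + (-1 : ℝ) • (-M x))) 2 volume :=
    (memLp_congr_ae (hpi (-1))).1 (hP (-1)).kinL2
  have hM : MemLp (fun x => -M x) 2 volume := by
    have h := (hLM1.add hLM2).const_smul (1 / 2 : ℝ)
    refine (memLp_congr_ae (Eventually.of_forall fun x => ?_)).1 h
    simp only [Pi.add_apply, Pi.smul_apply]
    module
  have hL : MemLp (Lin ψ A θ a) 2 volume := by
    have h := (hLM1.sub hLM2).const_smul (1 / 2 : ℝ)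
    refine (memLp_congr_ae (Eventually.of_forall fun x => ?_)).1 h
    simp only [Pi.sub_apply, Pi.smul_apply]
    module
  refine ⟨hL, ?_⟩
  have hθ2 : MemLp θ 2 volume := by
    have h := (hP 1).psiL2.sub hadm.psiL2
    refine (memLp_congr_ae (Eventually.of_forall fun x => ?_)).1 h
    simp only [Pi.sub_apply, one_smul]
    module
  have hc2 : ∀ j, MemLp (curlA a j) 2 volume := by
    intro j
    have h := ((hP 1).magL2 j).sub (hadm.magL2 j)
    refine (memLp_congr_ae (Eventually.of_forall fun x => ?_)).1 h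
    simp only [Pi.sub_apply, one_mul]
    ring
  -- expansions
  obtain ⟨hi1, hn⟩ := foc_quad1 ψ θ hadm.psiL2 hθ2
  obtain ⟨-, hk⟩ := foc_quad1 (Lin ψ A θ a) (fun x => -M x) hL hM
  have hw : ∀ f : R3 → Sp, (fun x => ‖f x‖ ^ 2 / ‖x‖) = fun x => ‖f x‖ ^ 2 * ‖x‖⁻¹ := by
    intro f; funext x; rw [div_eq_mul_inv]
  have hv1 : Integrable (fun x => ‖ψ x‖ ^ 2 * ‖x‖⁻¹) := by
    have := hadm.couL1; rwa [hw] at this
  have hv2 : Integrable (fun x => ‖ψ x + (1 : ℝ) • θ x‖ ^ 2 * ‖x‖⁻¹) := by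
    have := (hP 1).couL1; rwa [hw] at this
  have hv3 : Integrable (fun x => ‖θ x‖ ^ 2 * ‖x‖⁻¹) := by
    refine Integrable.mono' ((hv2.add hv1).const_mul 2) ?_ ?_
    · exact (hθ2.aestronglyMeasurable.norm.pow 2).mul
        (measurable_norm.inv.aestronglyMeasurable)
    · refine Eventually.of_forall fun x => ?_
      have h0 : 0 ≤ ‖x‖⁻¹ := inv_nonneg.2 (norm_nonneg _)
      rw [Real.norm_eq_abs, abs_of_nonneg (mul_nonneg (sq_nonneg _) h0)]
      simp only [Pi.add_apply]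
      have h1 : ‖θ x‖ ≤ ‖ψ x + (1 : ℝ) • θ x‖ + ‖ψ x‖ := by
        have h2 : θ x = (ψ x + (1 : ℝ) • θ x) - ψ x := by module
        calc ‖θ x‖ = ‖(ψ x + (1 : ℝ) • θ x) - ψ x‖ := by rw [← h2]
          _ ≤ _ := norm_sub_le _ _
      have h3 : ‖θ x‖ ^ 2 ≤ 2 * (‖ψ x + (1 : ℝ) • θ x‖ ^ 2 + ‖ψ x‖ ^ 2) := by
        have := norm_nonneg (θ x)
        nlinarith [sq_nonneg (‖ψ x + (1 : ℝ) • θ x‖ - ‖ψ x‖)]
      calc ‖θ x‖ ^ 2 * ‖x‖⁻¹ ≤ (2 * (‖ψ x + (1 : ℝ) • θ x‖ ^ 2 + ‖ψ x‖ ^ 2)) * ‖x‖⁻¹ :=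
            mul_le_mul_of_nonneg_right h3 h0
        _ = _ := by ring
  obtain ⟨hi2, hv⟩ := foc_quad (fun x => ‖x‖⁻¹) ψ θ hv1 hv2 hv3
  have hm := foc_mag B (curlA a) hadm.magL2 hc2
  -- names
  set b1 : ℝ := ∫ x, (inner ℂ (ψ x) (θ x)).re with hb1
  set b2 : ℝ := ∫ x, ‖θ x‖ ^ 2 with hb2
  set v1 : ℝ := ∫ x, (inner ℂ (ψ x) (θ x)).re * ‖x‖⁻¹ with hv1'
  set v2 : ℝ := ∫ x, ‖θ x‖ ^ 2 * ‖x‖⁻¹ with hv2'
  set m1 : ℝ := ∫ x, ∑ j, B j x * curlA a j x with hm1
  set m2 : ℝ := ∫ x, ∑ j, (curlA a j x) ^ 2 with hm2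
  set k0 : ℝ := ∫ x, ‖Lin ψ A θ a x‖ ^ 2 with hk0
  set k1 : ℝ := ∫ x, (inner ℂ (Lin ψ A θ a x) (-M x)).re with hk1
  set k2 : ℝ := ∫ x, ‖-M x‖ ^ 2 with hk2
  have hcou : ∀ t : ℝ, cou (fun x => ψ x + t • θ x) = cou ψ + 2 * t * v1 + t ^ 2 * v2 := by
    intro t
    have h := hv t
    unfold cou
    rw [hw (fun x => ψ x + t • θ x), hw ψ]
    exact h
  have hnrm' : ∀ t : ℝ, nrm (fun x => ψ x + t • θ x) = 1 + 2 * t * b1 + t ^ 2 * b2 := by
    intro t
    have h := hn t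
    have h' : (∫ x, ‖ψ x‖ ^ 2) = 1 := hnrm
    rw [h'] at h
    exact h
  have hmag' : ∀ t : ℝ, mag (fun j x => B j x + t * curlA a j x) =
      mag B + 2 * t * m1 + t ^ 2 * m2 := fun t => hm t
  have hkin : ∀ t : ℝ, kin (fun x => ψ x + t • θ x) (fun j x => D j x + t • pd j θ x)
      (fun j x => A j x + t * a j x) = t ^ 2 * (k0 + 2 * t * k1 + t ^ 2 * k2) := by
    intro t
    unfold kin
    have e : (fun x => ‖Pi (fun x => ψ x + t • θ x) (fun j x => D j x + t • pd j θ x)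
        (fun j x => A j x + t * a j x) x‖ ^ 2) =ᵐ[volume]
        fun x => t ^ 2 * ‖Lin ψ A θ a x + t • (-M x)‖ ^ 2 := by
      filter_upwards [hpi t] with x hx
      rw [hx, norm_smul, mul_pow, Real.norm_eq_abs, sq_abs]
    rw [integral_congr_ae e, integral_const_mul, hk t]
  have hdG : dG ε z ψ B θ a = 2 * ε * m1 + 2 * (ε * mag B * b1 - z * v1) := by
    unfold dG
    have e : (fun x : R3 => (ε * mag B - z / ‖x‖) * (inner ℂ (ψ x) (θ x)).re) =
        fun x => ε * mag B * (inner ℂ (ψ x) (θ x)).re -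
          z * ((inner ℂ (ψ x) (θ x)).re * ‖x‖⁻¹) := by
      funext x
      rw [div_eq_mul_inv]; ring
    rw [e, integral_sub (hi1.const_mul _) (hi2.const_mul _), integral_const_mul,
      integral_const_mul]
  -- the inequalities
  have hmain : ∀ t : ℝ, t * (-dG ε z ψ B θ a) + t ^ 2 * (z * v2 - ε * (m2 + 4 * m1 * b1 +
      mag B * b2) - ε * t * (2 * m1 * b2 + 2 * m2 * b1) - ε * t ^ 2 * m2 * b2) ≤
      C * Real.sqrt (1 + 2 * t * b1 + t ^ 2 * b2) *
        (|t| * Real.sqrt (k0 + 2 * t * k1 + t ^ 2 * k2)) := by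
    intro t
    have h := hC _ _ _ _ (hP t)
    rw [hcou t, hnrm' t, hmag' t, hkin t, Real.sqrt_mul (sq_nonneg t), Real.sqrt_sq_eq_abs] at h
    rw [hdG]
    have e : t * (-(2 * ε * m1 + 2 * (ε * mag B * b1 - z * v1))) + t ^ 2 * (z * v2 -
        ε * (m2 + 4 * m1 * b1 + mag B * b2) - ε * t * (2 * m1 * b2 + 2 * m2 * b1) -
        ε * t ^ 2 * m2 * b2) = z * (cou ψ + 2 * t * v1 + t ^ 2 * v2) -
        ε * (mag B + 2 * t * m1 + t ^ 2 * m2) * (1 + 2 * t * b1 + t ^ 2 * b2) := by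
      linear_combination hmag
    rw [e]
    linarith
  have hfin' := foc_lim (-dG ε z ψ B θ a) C
    (fun t => z * v2 - ε * (m2 + 4 * m1 * b1 + mag B * b2) -
      ε * t * (2 * m1 * b2 + 2 * m2 * b1) - ε * t ^ 2 * m2 * b2)
    (fun t => 1 + 2 * t * b1 + t ^ 2 * b2) (fun t => k0 + 2 * t * k1 + t ^ 2 * k2)
    (by fun_prop) (by fun_prop) (by fun_prop) hmain
  simp only [abs_neg, mul_zero, zero_mul, add_zero, ne_eq, OfNat.ofNat_ne_zero,
    not_false_eq_true, zero_pow, Real.sqrt_one, mul_one] at hfin'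
  exact hfin'

end

end Helper97.PC
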