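import Pool.Agent.Helper64.PC.Frc

/-!
# Module ULTRA: the meaning of the formula `isNPUltra`
-/

namespace Pool.Agent.Helper52.PC

open Pool.Agent.Helper46.SP Pool.Agent.Helper94.SP Name Pool.Agent.Helper64.PC

variable {P : Type} [Preorder P] [OrderTop P]

theorem ultra_fmem_omega_of_rho {z : Name P} {X : ℕ → Set P} {p : P} (h : FMem z (rho X) p) :
    FMem z omega p := by
  rw [fmem_rho] at h
  rw [fmem_omega]
  intro q hq
  obtain ⟨r, hr, i, he, _⟩ := h q hq
  exact ⟨r, hr, i, he⟩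

theorem ultra_fd_const {i j : ℕ} {p : P} : Fd ({_r | j = i} : Set P) p ↔ j = i := by
  constructor
  · intro h
    obtain ⟨r, _, a, ha, _⟩ := h p le_rfl
    exact ha
  · intro h q hq
    exact ⟨q, le_rfl, q, h, le_rfl⟩

theorem ultra_single (z : Name P) (i : ℕ) (p : P) :
    FMem z (rho fun j => ({_r | j = i} : Set P)) p ↔ FEq z (num i) p := by
  rw [fmem_rho]
  constructor
  · intro h
    refine feq_dense fun q hq => ?_
    obtain ⟨r, hr, j, he, hf⟩ := h q hq
    rw [ultra_fd_const] at hf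
    subst hf
    exact ⟨r, hr, he⟩
  · intro h q hq
    exact ⟨q, le_rfl, i, feq_mono h hq, ultra_fd_const.2 rfl⟩

theorem ultra_rho_mono {X Y : ℕ → Set P} {p : P}
    (h : ∀ i, ∀ r ≤ p, Fd (X i) r → Fd (Y i) r) {z : Name P} (hz : FMem z (rho X) p) :
    FMem z (rho Y) p := by
  rw [fmem_rho] at hz ⊢
  intro q hq
  obtain ⟨r, hr, i, he, hf⟩ := hz q hq
  exact ⟨r, hr, i, he, h i r (hr.trans hq) hf⟩

theorem ultra_fd_and {A B : Set P} {p : P} :
    Fd {r | Fd A r ∧ Fd B r} p ↔ Fd A p ∧ Fd B p :=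
  fd_iff_mem (A := {r | Fd A r ∧ Fd B r}) (fun _ _ h hq => ⟨h.1.mono hq, h.2.mono hq⟩)
    (fun _ h => ⟨Fd.dense fun q hq => let ⟨r, hr, h'⟩ := h q hq; ⟨r, hr, h'.1⟩,
      Fd.dense fun q hq => let ⟨r, hr, h'⟩ := h q hq; ⟨r, hr, h'.2⟩⟩)

theorem ultra_fd_not {A : Set P} {p : P} :
    Fd {r | ∀ s ≤ r, ¬ Fd A s} p ↔ ∀ s ≤ p, ¬ Fd A s :=
  fd_iff_mem (A := {r | ∀ s ≤ r, ¬ Fd A s}) (fun _ _ h hq s hs => h s (hs.trans hq))
    (fun _ h s hs hA => by
      obtain ⟨r, hr, h'⟩ := h s hs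
      exact h' r le_rfl (hA.mono hr))

theorem ultra_rho_and (X Y : ℕ → Set P) (z : Name P) (p : P) :
    FMem z (rho fun i => {r | Fd (X i) r ∧ Fd (Y i) r}) p ↔
      FMem z (rho X) p ∧ FMem z (rho Y) p := by
  constructor
  · intro h
    exact ⟨ultra_rho_mono (fun i r _ hr => (ultra_fd_and.1 hr).1) h,
      ultra_rho_mono (fun i r _ hr => (ultra_fd_and.1 hr).2) h⟩
  · rintro ⟨h1, h2⟩
    rw [fmem_rho]
    intro q hq
    rw [fmem_rho] at h1 h2
    obtain ⟨r, hr, i, he, hf⟩ := h1 q hq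
    obtain ⟨s, hs, j, he', hf'⟩ := h2 r (hr.trans hq)
    have hij : i = j := num_inj (feq_trans (feq_symm (feq_mono he hs)) he')
    subst hij
    exact ⟨s, hs.trans hr, i, he', ultra_fd_and.2 ⟨hf.mono hs, hf'⟩⟩

theorem ultra_rho_not (X : ℕ → Set P) (z : Name P) (p : P) :
    FMem z (rho fun i => {r | ∀ s ≤ r, ¬ Fd (X i) s}) p ↔
      FMem z omega p ∧ ∀ q ≤ p, ¬ FMem z (rho X) q := by
  constructor
  · intro h
    refine ⟨ultra_fmem_omega_of_rho h, fun q hq hz => ?_⟩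
    rw [fmem_rho] at h hz
    obtain ⟨r, hr, i, he, hf⟩ := h q hq
    obtain ⟨s, hs, j, he', hf'⟩ := hz r hr
    have hij : i = j := num_inj (feq_trans (feq_symm (feq_mono he hs)) he')
    subst hij
    exact ultra_fd_not.1 hf s hs hf'
  · rintro ⟨h1, h2⟩
    rw [fmem_rho]
    rw [fmem_omega] at h1
    intro q hq
    obtain ⟨r, hr, i, he⟩ := h1 q hq
    refine ⟨r, hr, i, he, ultra_fd_not.2 fun s hs hX => ?_⟩
    refine h2 s (hs.trans (hr.trans hq)) ?_
    rw [fmem_rho]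
    intro t ht
    exact ⟨t, le_rfl, i, feq_mono he (ht.trans hs), hX.mono ht⟩

section

variable {k : ℕ} (v : Fin k → Name P) (w F : Fin k) (p : P)

theorem ultra_c1 : Fo (Fml.all (.imp (.mem 0 F.succ) (.all (.imp (.mem 0 1)
      (.mem 0 w.succ.succ))))) v p ↔
    ∀ s, ∀ q ≤ p, FMem s (v F) q → ∀ x, ∀ r ≤ q, FMem x s r → FMem x (v w) r := by
  simp only [fo_all, fo_imp, fo_mem]
  rfl

theorem ultra_c2 : Fo (Fml.all (.all (.imp (.mem 1 F.succ.succ)
      (.imp (.all (.imp (.mem 0 2) (.mem 0 1)))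
      (.imp (.all (.imp (.mem 0 1) (.mem 0 w.succ.succ.succ))) (.mem 0 F.succ.succ)))))) v p ↔
    ∀ s t, ∀ q ≤ p, FMem s (v F) q → ∀ r ≤ q, (∀ z, ∀ u ≤ r, FMem z s u → FMem z t u) →
      ∀ r' ≤ r, (∀ z, ∀ u ≤ r', FMem z t u → FMem z (v w) u) → FMem t (v F) r' := by
  simp only [fo_all, fo_imp, fo_mem]
  rfl

theorem ultra_c3 : Fo (Fml.all (.all (.all (.imp (.mem 2 F.succ.succ.succ)
      (.imp (.mem 1 F.succ.succ.succ)
      (.imp (.all (.iff (.mem 0 1) (.and (.mem 0 3) (.mem 0 2)))) (.mem 0 F.succ.succ.succ))))))) v p ↔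
    ∀ s t u, ∀ q ≤ p, FMem s (v F) q → ∀ r ≤ q, FMem t (v F) r →
      ∀ r' ≤ r, (∀ z, ∀ r'' ≤ r', (FMem z u r'' ↔ FMem z s r'' ∧ FMem z t r'')) →
        FMem u (v F) r' := by
  simp only [fo_all, fo_imp, fo_mem, fo_iff, fo_and]
  rfl

theorem ultra_c4 : Fo (Fml.all (.all (.imp (.all (.imp (.mem 0 2) (.mem 0 w.succ.succ.succ)))
      (.imp (.all (.iff (.mem 0 1) (.and (.mem 0 w.succ.succ.succ) (.neg (.mem 0 2)))))
        (.iff (.mem 1 F.succ.succ) (.neg (.mem 0 F.succ.succ))))))) v p ↔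
    ∀ s t, ∀ q ≤ p, (∀ z, ∀ u ≤ q, FMem z s u → FMem z (v w) u) →
      ∀ r ≤ q, (∀ z, ∀ u ≤ r, (FMem z t u ↔ FMem z (v w) u ∧ ∀ u' ≤ u, ¬ FMem z s u')) →
        ∀ r' ≤ r, (FMem s (v F) r' ↔ ∀ r'' ≤ r', ¬ FMem t (v F) r'') := by
  simp only [fo_all, fo_imp, fo_mem, fo_iff, fo_and, fo_neg]
  rfl

theorem ultra_c5 : Fo (Fml.all (.all (.imp (.mem 1 w.succ.succ)
      (.imp (.all (.iff (.mem 0 1) (.eq 0 2)))
      (.neg (.mem 0 F.succ.succ)))))) v p ↔
    ∀ i s, ∀ q ≤ p, FMem i (v w) q → ∀ r ≤ q, (∀ z, ∀ u ≤ r, (FMem z s u ↔ FEq z i u)) →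
      ∀ r' ≤ r, ¬ FMem s (v F) r' := by
  simp only [fo_all, fo_imp, fo_mem, fo_iff, fo_eq, fo_neg]
  rfl

end

theorem st_ultra : ST_ultra := by
  intro P _ _ k v w F p hw
  have hwm : ∀ z, ∀ q ≤ p, (FMem z (v w) q ↔ FMem z omega q) :=
    fun z q hq => fmem_iff_of_feq hw z hq
  have key : (triv P).Forces (Fm.isNPUltra w F) v p ↔ _ :=
    Iff.trans (fo_and _ _ v p) (and_congr (ultra_c1 v w F p)
      (Iff.trans (fo_and _ _ v p) (and_congr (ultra_c2 v w F p)
        (Iff.trans (fo_and _ _ v p) (and_congr (ultra_c3 v F p)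
          (Iff.trans (fo_and _ _ v p) (and_congr (ultra_c4 v w F p) (ultra_c5 v w F p))))))))
  rw [key]
  generalize v F = G
  constructor
  · rintro ⟨h1, h2, h3, h4, h5⟩
    have hG4 : ∀ X : ℕ → Set P, ∀ q ≤ p, (FMem (rho X) G q ↔
        ∀ r ≤ q, ¬ FMem (rho fun i => {r | ∀ s ≤ r, ¬ Fd (X i) s}) G r) := by
      intro X q hq
      refine h4 (rho X) (rho fun i => {r | ∀ s ≤ r, ¬ Fd (X i) s}) q hq
        (fun z u hu hz => (hwm z u (hu.trans hq)).2 (ultra_fmem_omega_of_rho hz)) q le_rfl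
        (fun z u hu => ?_) q le_rfl
      rw [ultra_rho_not, hwm z u (hu.trans hq)]
    refine ⟨?_, ?_, ?_, ?_, ?_, ?_⟩
    · intro s q hq hs x r hr hx
      exact (hwm x r (hr.trans hq)).1 (h1 s q hq hs x r hr hx)
    · intro X Y q hq hX hXY
      refine h2 (rho X) (rho Y) q hq hX q le_rfl (fun z u hu hz => ?_) q le_rfl
        (fun z u hu hz => (hwm z u (hu.trans hq)).2 (ultra_fmem_omega_of_rho hz))
      exact ultra_rho_mono (fun i r hr => hXY i r (hr.trans hu)) hz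
    · intro X Y q hq hX hY
      exact h3 (rho X) (rho Y) _ q hq hX q le_rfl hY q le_rfl
        (fun z r'' _ => ultra_rho_and X Y z r'')
    · intro X q hq
      by_cases h : ∃ r ≤ q, FMem (rho fun i => {r | ∀ s ≤ r, ¬ Fd (X i) s}) G r
      · obtain ⟨r, hr, h'⟩ := h
        exact ⟨r, hr, Or.inr h'⟩
      · refine ⟨q, le_rfl, Or.inl ((hG4 X q hq).2 fun r hr h' => h ⟨r, hr, h'⟩)⟩
    · intro X q hq hX
      exact (hG4 X q hq).1 hX q le_rfl
    · intro i q hq
      refine h5 (num i) (rho fun j => ({_r | j = i} : Set P)) q hq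
        ((hwm _ q hq).2 (fmem_num_omega i q)) q le_rfl (fun z u _ => ultra_single z i u) q le_rfl
  · rintro ⟨h1, h2, h3, h4, h5, h6⟩
    have hom : ∀ {s q}, q ≤ p → FMem s G q →
        FEq s (rho fun i => {r | FMem (num i) s r}) q := fun hq hs =>
      feq_rho fun x r hr hx => h1 _ _ hq hs x r hr hx
    have hFd : ∀ {i : ℕ} {s : Name P} {r : P}, Fd {r | FMem (num i) s r} r ↔ FMem (num i) s r :=
      fun {i s r} => fd_iff_mem (A := {r | FMem (num i) s r})
        (fun _ _ h hq => fmem_mono h hq) (fun _ h => fmem_dense h)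
    refine ⟨?_, ?_, ?_, ?_, ?_⟩
    · intro s q hq hs x r hr hx
      exact (hwm x r (hr.trans hq)).2 (h1 s q hq hs x r hr hx)
    · intro s t q hq hs r hr hst r' hr' ht
      have e1 := feq_mono (hom hq hs) (hr'.trans hr)
      have e2 : FEq t (rho fun i => {r | FMem (num i) t r}) r' :=
        feq_rho fun x u hu hx => (hwm x u (hu.trans (hr'.trans (hr.trans hq)))).1 (ht x u hu hx)
      have m1 := fmem_congr e1 (feq_refl G _) (fmem_mono hs (hr'.trans hr))
      have m2 := h2 _ (fun i => {r | FMem (num i) t r}) r' (hr'.trans (hr.trans hq)) m1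
        (fun i u hu hu' => hFd.2 (hst _ u (hu.trans hr') (hFd.1 hu')))
      exact fmem_congr (feq_symm e2) (feq_refl G _) m2
    · intro s t u q hq hs r hr ht r' hr' hu
      have e1 := feq_mono (hom hq hs) (hr'.trans hr)
      have e2 := feq_mono (hom (hr.trans hq) ht) hr'
      have m1 := fmem_congr e1 (feq_refl G _) (fmem_mono hs (hr'.trans hr))
      have m2 := fmem_congr e2 (feq_refl G _) (fmem_mono ht hr')
      have m3 := h3 _ _ r' (hr'.trans (hr.trans hq)) m1 m2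
      have e3 : FEq u (rho fun i => {r | FMem (num i) u r}) r' :=
        feq_rho fun x q' hq' hx => h1 s q hq hs x q' (hq'.trans (hr'.trans hr))
          ((hu x q' hq').1 hx).1
      have m4 := h2 _ (fun i => {r | FMem (num i) u r}) r' (hr'.trans (hr.trans hq)) m3
        (fun i q' hq' h' => by
          have h'' := ultra_fd_and.1 h'
          exact hFd.2 ((hu _ q' hq').2 ⟨hFd.1 h''.1, hFd.1 h''.2⟩))
      exact fmem_congr (feq_symm e3) (feq_refl G _) m4
    · intro s t q hq hs r hr ht r' hr'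
      have hr'p : r' ≤ p := hr'.trans (hr.trans hq)
      have e1 : FEq s (rho fun i => {r | FMem (num i) s r}) r' :=
        feq_rho fun x u hu hx => (hwm x u (hu.trans hr'p)).1 (hs x u (hu.trans (hr'.trans hr)) hx)
      have e2 : FEq t (rho fun i => {r | ∀ s' ≤ r, ¬ Fd {r | FMem (num i) s r} s'}) r' := by
        refine feq_ext fun z q' hq' => ?_
        rw [ht z q' (hq'.trans hr'), ultra_rho_not, hwm z q' (hq'.trans hr'p)]
        refine and_congr Iff.rfl ?_
        constructor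
        · intro h q'' hq'' hz
          exact h q'' hq'' (fmem_congr (feq_refl z _)
            (feq_symm (feq_mono e1 (hq''.trans hq'))) hz)
        · intro h q'' hq'' hz
          exact h q'' hq'' (fmem_congr (feq_refl z _) (feq_mono e1 (hq''.trans hq')) hz)
      constructor
      · intro hs' r'' hr'' ht'
        have m1 := fmem_congr (feq_mono e1 hr'') (feq_refl G _) (fmem_mono hs' hr'')
        have m2 := fmem_congr (feq_mono e2 hr'') (feq_refl G _) ht'
        exact h5 _ r'' (hr''.trans hr'p) m1 m2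
      · intro h
        refine fmem_congr (feq_symm e1) (feq_refl G _) (fmem_dense fun u hu => ?_)
        obtain ⟨u', hu', h' | h'⟩ := h4 (fun i => {r | FMem (num i) s r}) u (hu.trans hr'p)
        · exact ⟨u', hu', h'⟩
        · exact absurd (fmem_congr (feq_symm (feq_mono e2 (hu'.trans hu))) (feq_refl G _) h')
            (h u' (hu'.trans hu))
    · intro i s q hq hi r hr hs r' hr' hs'
      have hi' := (hwm i q hq).1 hi
      rw [fmem_omega] at hi'
      obtain ⟨u, hu, n, hn⟩ := hi' r' (hr'.trans hr)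
      have e : FEq s (rho fun j => ({_r | j = n} : Set P)) u := by
        refine feq_ext fun z u' hu' => ?_
        rw [hs z u' (hu'.trans (hu.trans hr')), ultra_single]
        exact ⟨fun h => feq_trans h (feq_mono hn hu'),
          fun h => feq_trans h (feq_symm (feq_mono hn hu'))⟩
      exact h6 n u (hu.trans (hr'.trans (hr.trans hq)))
        (fmem_congr e (feq_refl G _) (fmem_mono hs' hu))

end Pool.Agent.Helper52.PC
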